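import Pool.Agent.W_eea520_n.Defs

/-!
# Multiplication with a weight which is trivial on the classes (MP_eea520_nt, theorem HALF)
-/

set_option autoImplicit false

namespace Pool.Agent.EEAH

open Filter Topology Pool.Agent.EEA520 Pool.Agent.EEAN

variable {n : ℕ}

theorem shift_coeff (f : R n) (v : Wt n) :
    (f * mon v).coeff = f.coeff.mapDomain fun w => w + v := by
  classical
  induction f using AddMonoidAlgebra.induction_linear with
  | zero => rw [zero_mul, AddMonoidAlgebra.coeff_zero, Finsupp.mapDomain_zero]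
  | add x y hx hy =>
    rw [add_mul, AddMonoidAlgebra.coeff_add, hx, hy, AddMonoidAlgebra.coeff_add,
      Finsupp.mapDomain_add]
  | single w z =>
    rw [mon, AddMonoidAlgebra.single_mul_single, AddMonoidAlgebra.coeff_single,
      AddMonoidAlgebra.coeff_single, Finsupp.mapDomain_single, mul_one]

theorem shift_ev_add (t : Torus n) (v w : Wt n) : t.ev (v + w) = t.ev v * t.ev w := by
  unfold Torus.ev
  simp only [Prod.fst_add, Prod.snd_add, Pi.add_apply, zpow_add, Finset.prod_mul_distrib]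
  exact mul_mul_mul_comm _ _ _ _

theorem factor_shift {t : Torus n} {v : Wt n} (hv : t.ev v = 1) (f : R n) (q : ℂ) :
    t.factor (f * mon v).coeff q = t.factor f.coeff q := by
  unfold Torus.factor
  rw [shift_coeff, Finsupp.prod_mapDomain_index_inj (add_left_injective v)]
  refine Finset.prod_congr rfl fun w _ => ?_
  show (1 - (t.ev (w + v) : ℂ) * q) ^ (-(f.coeff w)) = (1 - (t.ev w : ℂ) * q) ^ (-(f.coeff w))
  rw [shift_ev_add, hv, mul_one]

theorem poleOrder_shift {π : GSys n} {v : Wt n} (hv : ∀ p, (π p).ev v = 1) {f : R n} {s₀ : ℂ}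
    {k : ℤ} (h : PoleOrder π (f * mon v).coeff s₀ k) : PoleOrder π f.coeff s₀ k := by
  obtain ⟨g, hg, hk, hL⟩ := h
  refine ⟨g, hg, hk, ?_⟩
  unfold IsL at hL ⊢
  filter_upwards [hL] with s hs
  have h1 : (fun p : Pr => (π p).factor f.coeff (((p : ℕ) : ℂ) ^ (-s))) =
      fun p : Pr => (π p).factor (f * mon v).coeff (((p : ℕ) : ℂ) ^ (-s)) := by
    funext p
    exact (factor_shift (hv p) f _).symm
  rw [h1]
  exact hs

theorem ev_nu {t : Torus n} (hε : t.c ^ 2 * ∏ i, t.x i = 1) (a : ℤ) :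
    t.ev (2 * a, fun _ => a) = 1 := by
  unfold Torus.ev
  show t.c ^ (2 * a) * ∏ i, t.x i ^ a = 1
  rw [Finset.prod_zpow, zpow_mul, ← mul_zpow]
  have h1 : t.c ^ (2 : ℤ) * ∏ i, t.x i = 1 := by
    have h2 : t.c ^ (2 : ℤ) = t.c ^ 2 := by norm_cast
    rw [h2, hε]
  rw [h1, one_zpow]

end Pool.Agent.EEAH
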