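import Pool.Agent.W_eea520_h66.HD66
import Pool.Agent.W_eea520h_h51.Shift

/-!
# The Adams square of an irreducible representation of `GSpin_{2n+1}` (MP_eea520_nt, theorem HALF)
-/

set_option autoImplicit false

namespace Pool.Agent.EEAH

open Filter Topology Pool.Agent.EEA520 Pool.Agent.EEAN Pool.Agent.EEAG1 Pool.Agent.EEAP

variable {n : ℕ}

/-- The first coordinates of the weights of an irreducible representation. -/
theorem irr_fst {k : ℤ} {μ : Fin n → ℤ} {m : Wt n →₀ ℤ} (h : IsIrr k μ m) {w : Wt n}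
    (hw : m w ≠ 0) : w.1 = k := by
  classical
  obtain ⟨h1, h2, h3⟩ := h
  have hD : (alt 1 fun j : Fin n => (n : ℤ) - j).coeff
      ((1, fun j : Fin n => (n : ℤ) - j) : Wt n) = 1 := by
    refine (top_alt _ _ (fun i j hij => ?_) fun i => ?_).1
    · have h4 : (i : ℕ) < (j : ℕ) := hij
      show (n : ℤ) - (j : ℕ) < (n : ℤ) - (i : ℕ)
      omega
    · have := i.2
      omega
  have hw' : (AddMonoidAlgebra.ofCoeff m : R n).coeff w ≠ 0 := hw
  have k1 := B3a_top (AddMonoidHom.fst ℤ (Fin n → ℤ)) (f := AddMonoidAlgebra.ofCoeff m)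
    (g := alt 1 fun j : Fin n => (n : ℤ) - j) (c := k + 1) (by
      intro u hu
      rw [h3] at hu
      obtain ⟨g, hg⟩ := B3a_alt hu
      rw [← hg]
      show k + 1 ≤ k + 1
      exact le_rfl) hw' (by rw [hD]; exact one_ne_zero)
  have k2 := B3a_top (-(AddMonoidHom.fst ℤ (Fin n → ℤ))) (f := AddMonoidAlgebra.ofCoeff m)
    (g := alt 1 fun j : Fin n => (n : ℤ) - j) (c := -(k + 1)) (by
      intro u hu
      rw [h3] at hu
      obtain ⟨g, hg⟩ := B3a_alt hu
      rw [← hg]
      show -(k + 1) ≤ -(k + 1)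
      exact le_rfl) hw' (by rw [hD]; exact one_ne_zero)
  have k3 : w.1 + 1 ≤ k + 1 := k1
  have k4 : -w.1 + -1 ≤ -(k + 1) := k2
  omega

theorem shift_apply (f : R n) (u v : Wt n) : (f * mon v).coeff u = f.coeff (u - v) := by
  rw [shift_coeff]
  have h1 := Finsupp.mapDomain_apply (add_left_injective v) f.coeff (u - v)
  rw [sub_add_cancel] at h1
  exact h1

theorem coeff_mul_alt' (f : R n) (K : ℤ) (M : Fin n → ℤ) (u : Wt n) :
    (f * alt K M).coeff u = ∑ g : WG n, sgn g * f.coeff (u - act g (K, M)) := by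
  rw [alt_eq_sum, Finset.mul_sum, AddMonoidAlgebra.coeff_sum, Finsupp.finsetSum_apply]
  refine Finset.sum_congr rfl fun g _ => ?_
  rw [mul_smul_comm, AddMonoidAlgebra.coeff_smul_apply, smul_eq_mul, shift_apply]

theorem hd2_sgn (g : WG n) : sgn g * sgn g = 1 := by
  unfold sgn
  rcases Int.units_eq_one_or (Equiv.Perm.sign g.1) with h | h <;>
    rcases neg_one_pow_eq_or ℤ g.2.card with h' | h' <;> rw [h, h'] <;> norm_num

theorem hd2_avg {f : R n} (hf : IsCharacter f.coeff) (v v' : Wt n) (h : WG n) :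
    ∑ g : WG n, sgn g * f.coeff (v' - act g v) =
      ∑ g : WG n, sgn h * sgn g * f.coeff (act h v' - act g v) := by
  rw [← (B1a_mul_bijective h).sum_comp fun g => sgn h * sgn g * f.coeff (act h v' - act g v)]
  refine Finset.sum_congr rfl fun g _ => ?_
  rw [B1a_sgn_mul, B1a_act_mul, ← map_sub, hf.act]
  have h1 := hd2_sgn h
  linear_combination (-(sgn g * f.coeff (v' - act g v))) * h1

theorem hd2_card {f : R n} (hf : IsCharacter f.coeff) (v v' : Wt n) :
    (Fintype.card (WG n) : ℤ) * ∑ g : WG n, sgn g * f.coeff (v' - act g v) =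
      ∑ h : WG n, ∑ g : WG n, sgn h * sgn g * f.coeff (act h v' - act g v) := by
  have h1 : ∑ h : WG n, ∑ g : WG n, sgn h * sgn g * f.coeff (act h v' - act g v) =
      ∑ _h : WG n, ∑ g : WG n, sgn g * f.coeff (v' - act g v) :=
    Finset.sum_congr rfl fun h _ => (hd2_avg hf v v' h).symm
  rw [h1, Finset.sum_const, Finset.card_univ, nsmul_eq_mul]

/-- Symmetry, for two characters which are dual to each other. -/
theorem coef_dual {f F : R n} (hf : IsCharacter f.coeff) (hF : IsCharacter F.coeff)
    (hd : ∀ w, F.coeff (-w) = f.coeff w) (K K' : ℤ) (M M' : Fin n → ℤ) :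
    (F * alt K M).coeff (K', M') = (f * alt K' M').coeff (K, M) := by
  rw [coeff_mul_alt', coeff_mul_alt']
  have hc : (Fintype.card (WG n) : ℤ) ≠ 0 := by
    have h1 : 0 < Fintype.card (WG n) := Fintype.card_pos_iff.mpr ⟨(1, ∅)⟩
    exact_mod_cast h1.ne'
  refine mul_left_cancel₀ hc ?_
  rw [hd2_card hF, hd2_card hf, Finset.sum_comm]
  refine Finset.sum_congr rfl fun g _ => Finset.sum_congr rfl fun h _ => ?_
  rw [← hd, neg_sub]
  ring

theorem nu_isCharacter (a : ℤ) : IsCharacter (mon ((2 * a, fun _ => a) : Wt n) : R n).coeff := by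
  classical
  have h0 : ∀ w : Wt n, (mon ((2 * a, fun _ => a) : Wt n) : R n).coeff w =
      if ((2 * a, fun _ => a) : Wt n) = w then 1 else 0 := by
    intro w
    rw [mon, AddMonoidAlgebra.coeff_single, Finsupp.single_apply]
  refine ⟨fun σ k μ => ?_, fun i k μ => ?_⟩
  · rw [h0, h0]
    refine if_congr ?_ rfl rfl
    constructor
    · intro h
      have h1 : 2 * a = k := congrArg Prod.fst h
      have h2 : (fun _ => a) = μ ∘ σ := congrArg Prod.snd h
      refine Prod.ext h1 (funext fun j => ?_)
      have h3 := congrFun h2 (σ.symm j)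
      simpa using h3
    · intro h
      have h1 : 2 * a = k := congrArg Prod.fst h
      have h2 : (fun _ => a) = μ := congrArg Prod.snd h
      refine Prod.ext h1 (funext fun j => ?_)
      exact congrFun h2 (σ j)
  · rw [h0, h0]
    refine if_congr ?_ rfl rfl
    constructor
    · intro h
      have h1 : 2 * a = k := congrArg Prod.fst h
      have h2 : (fun _ => a) = Function.update μ i (k - μ i) := congrArg Prod.snd h
      refine Prod.ext h1 (funext fun j => ?_)
      have h3 := congrFun h2 j
      by_cases hj : j = i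
      · subst hj
        rw [Function.update_self] at h3
        show a = μ j
        have h4 : a = k - μ j := h3
        omega
      · rw [Function.update_of_ne hj] at h3
        exact h3
    · intro h
      have h1 : 2 * a = k := congrArg Prod.fst h
      have h2 : (fun _ => a) = μ := congrArg Prod.snd h
      refine Prod.ext h1 (funext fun j => ?_)
      have h3 : a = μ j := congrFun h2 j
      have h4 : a = μ i := congrFun h2 i
      show a = Function.update μ i (k - μ i) j
      by_cases hj : j = i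
      · subst hj
        rw [Function.update_self]
        omega
      · rw [Function.update_of_ne hj]
        exact h3

/-- The multiplicity of the trivial representation in the square is one. -/
theorem mult_sq {k : ℤ} {μ : Fin n → ℤ} {m : Wt n →₀ ℤ} (h : IsIrr k μ m) :
    mult ((AddMonoidAlgebra.ofCoeff m : R n) * AddMonoidAlgebra.ofCoeff m *
      mon (2 * -k, fun _ => -k)) 0 = 1 := by
  classical
  set f : R n := AddMonoidAlgebra.ofCoeff m with hf
  have hfc : f.coeff = m := rfl
  have hch : IsCharacter f.coeff := h.isCharacter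
  have hFch : IsCharacter (f * mon (2 * -k, fun _ => -k)).coeff :=
    isCharacter_mul hch (nu_isCharacter (-k))
  have hd : ∀ w, (f * mon (2 * -k, fun _ => -k)).coeff (-w) = f.coeff w := by
    intro w
    rw [shift_apply]
    by_cases hw : w.1 = k
    · have h1 : act (1, Finset.univ) w = -w - ((2 * -k, fun _ => -k) : Wt n) := by
        rw [act_apply]
        refine Prod.ext ?_ ?_
        · show w.1 = -w.1 - 2 * -k
          omega
        · funext i
          show (if i ∈ (Finset.univ : Finset (Fin n)) then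
            w.1 - w.2 ((1 : Equiv.Perm (Fin n)) i) else w.2 ((1 : Equiv.Perm (Fin n)) i)) =
              -w.2 i - -k
          rw [if_pos (Finset.mem_univ i), Equiv.Perm.one_apply]
          omega
      rw [← h1, hch.act]
    · have h1 : f.coeff w = 0 := by
        by_contra h2
        exact hw (irr_fst h h2)
      have h2 : f.coeff (-w - ((2 * -k, fun _ => -k) : Wt n)) = 0 := by
        by_contra h3
        have h4 := irr_fst h h3
        have h5 : -w.1 - 2 * -k = k := h4
        omega
      rw [h1, h2]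
  have h0 : shf (0 : Fin n → ℤ) = fun j : Fin n => (n : ℤ) - j := by
    funext j
    show (0 : ℤ) + ((n : ℤ) - (j : ℕ)) = (n : ℤ) - (j : ℕ)
    rw [zero_add]
  have h3 : f * alt 1 (shf (0 : Fin n → ℤ)) = alt (k + 1) (shf μ) := by
    rw [h0]
    exact h.2.2
  unfold mult al
  have e : f * f * mon (2 * -k, fun _ => -k) * alt 1 (shf (0 : Fin n → ℤ)) =
      f * mon (2 * -k, fun _ => -k) * alt (k + 1) (shf μ) := by
    rw [← h3]
    ring
  rw [e, coef_dual hch hFch hd, h3]
  have hM : StrictAnti (shf μ) := by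
    intro i j hij
    have h1 := h.1 hij.le
    have h2 : (i : ℕ) < (j : ℕ) := hij
    show μ j + ((n : ℤ) - (j : ℕ)) < μ i + ((n : ℤ) - (i : ℕ))
    omega
  have hK : ∀ i, k + 1 < 2 * shf μ i := by
    intro i
    have h1 := h.2.1 i
    have h2 := i.2
    show k + 1 < 2 * (μ i + ((n : ℤ) - (i : ℕ)))
    omega
  rw [alt_dom hM hK hM hK, if_pos rfl]

/-- The order of the Adams square of an irreducible representation of `GSpin_{2n+1}` is odd, if the
similitude character is trivial on the classes. -/
theorem odd_adams2 {π : GSys n} (hπ : Tempered π)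
    (hε : ∀ p, (π p).c ^ 2 * ∏ i, (π p).x i = 1)
    (hST : ∀ (μ : Fin n → ℤ) (m : Wt n →₀ ℤ), IsIrr 0 μ m → μ ≠ 0 → PoleOrder π m 1 0)
    {k : ℤ} {μ : Fin n → ℤ} {m : Wt n →₀ ℤ} (h : IsIrr k μ m) :
    ∃ l : ℤ, Odd l ∧ PoleOrder π (adams m) 1 l := by
  classical
  have hsq := mult_sq h
  obtain ⟨g, hg⟩ := adams_sq (AddMonoidAlgebra.ofCoeff m : R n)
  have hch : IsCharacter m := h.isCharacter
  have hA : Inv0 ((AddMonoidAlgebra.ofCoeff (adams m) : R n) * mon (2 * -k, fun _ => -k)) := by
    refine ⟨isCharacter_mul (adams_isCharacter hch) (nu_isCharacter (-k)), fun u hu => ?_⟩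
    rw [shift_apply] at hu
    have hu' : adams m (u - ((2 * -k, fun _ => -k) : Wt n)) ≠ 0 := hu
    by_cases h1 : ∃ w : Wt n, w + w = u - ((2 * -k, fun _ => -k) : Wt n)
    · obtain ⟨w, hw⟩ := h1
      rw [← hw, adams_dbl] at hu'
      have h2 := irr_fst h hu'
      have h3 : w.1 + w.1 = u.1 - 2 * -k := congrArg Prod.fst hw
      omega
    · exact absurd (adams_not m h1) hu'
  have hP := poleOrder_shift (fun p => ev_nu (hε p) (-k)) (order66 hπ hST hA)
  refine ⟨mult ((AddMonoidAlgebra.ofCoeff (adams m) : R n) * mon (2 * -k, fun _ => -k)) 0, ?_, hP⟩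
  rw [hg, add_mul, mult_add, smul_mul_assoc, mult_smul] at hsq
  refine ⟨-(mult (g * mon (2 * -k, fun _ => -k)) 0), ?_⟩
  have h4 : (AddMonoidAlgebra.ofCoeff m : R n).coeff = m := rfl
  rw [h4] at hsq
  linarith

end Pool.Agent.EEAH
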